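import Pool.Agent.H654R5.PT.Stm
import Pool.Agent.H639R2.NTP.Comp

/-!
# The list of the candidate cells is computable (task CP1)
-/

namespace Pool.Agent.H654R5.PT.CP1

open Pool.Agent.NPC

theorem bits_nil {α : Type} [TEnc α] : bits ([] : List α) = [false] := rfl

theorem bits_cons {α : Type} [TEnc α] (a : α) (l : List α) :
    bits (a :: l) = true :: (bits a ++ bits l) := rfl

theorem bits_pair {α β : Type} [TEnc α] [TEnc β] (a : α) (b : β) :
    bits (a, b) = true :: (bits a ++ bits b) := rfl

theorem bits_list {α : Type} [TEnc α] (l : List α) :
    bits l = l.flatMap (fun a => true :: bits a) ++ [false] := by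
  induction l with
  | nil => rfl
  | cons a l ih =>
    rw [bits_cons, ih, List.flatMap_cons]
    simp only [List.cons_append, List.append_assoc]

theorem prim_bits_list {α : Type} [TEnc α] [Primcodable α] (h : Primrec (bits : α → List Bool)) :
    Primrec (bits : List α → List Bool) := by
  have h1 : Primrec (fun l : List α => l.flatMap (fun a => true :: bits a) ++ [false]) := by
    refine Primrec.list_append.comp (Primrec.list_flatMap Primrec.id ?_) (Primrec.const [false])
    exact Primrec.list_cons.comp (Primrec.const true) (h.comp Primrec.snd)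
  exact h1.of_eq fun l => (bits_list l).symm

theorem prim_bits_bool : Primrec (bits : Bool → List Bool) := Primrec.dom_finite _

theorem prim_bits_pair {α β : Type} [TEnc α] [Primcodable α] [TEnc β] [Primcodable β]
    (h : Primrec (bits : α → List Bool)) (h' : Primrec (bits : β → List Bool)) :
    Primrec (bits : α × β → List Bool) := by
  have h1 : Primrec (fun p : α × β => true :: (bits p.1 ++ bits p.2)) :=
    Primrec.list_cons.comp (Primrec.const true)
      (Primrec.list_append.comp (h.comp Primrec.fst) (h'.comp Primrec.snd))
  exact h1.of_eq fun p => rfl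

theorem prim_valB : Primrec valB := by
  have h1 : Primrec (fun l : List Bool => l.foldr (fun b s => b.toNat + 2 * s) 0) := by
    refine Primrec.list_foldr (h := fun _ (p : Bool × ℕ) => p.1.toNat + 2 * p.2) Primrec.id
      (Primrec.const 0) ?_
    refine Primrec.nat_add.comp ?_ (Primrec.nat_mul.comp (Primrec.const 2)
      (Primrec.snd.comp Primrec.snd))
    exact (Primrec.dom_finite Bool.toNat).comp (Primrec.fst.comp Primrec.snd)
  refine h1.of_eq fun l => ?_
  induction l with
  | nil => rfl
  | cons b l ih => rw [List.foldr_cons, ih, valB_cons]; cases b <;> rfl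

/-- the coded form of a list of cells -/
def code' (l : List (ℕ × List Bool)) : List (List Bool × List Bool) :=
  l.map (fun p => (p.1.bits, p.2))

/-- the inverse of `code'` -/
def dec' (l : List (List Bool × List Bool)) : List (ℕ × List Bool) :=
  l.map (fun p => (valB p.1, p.2))

theorem dec_code (l : List (ℕ × List Bool)) : dec' (code' l) = l := by
  induction l with
  | nil => rfl
  | cons p l ih =>
    simp only [code', dec', List.map_cons, valB_bits] at ih ⊢
    rw [ih]

theorem bits_code (l : List (ℕ × List Bool)) : bits (code' l) = bits l := by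
  induction l with
  | nil => rfl
  | cons p l ih =>
    obtain ⟨n, s⟩ := p
    change true :: (bits (n.bits, s) ++ bits (code' l)) = true :: (bits (n, s) ++ bits l)
    rw [ih]
    rfl

/-- the search for the coded list -/
def srch (e : List Bool) (n : ℕ) : Option (List (ℕ × List Bool)) :=
  (Encodable.decode n : Option (List (List Bool × List Bool))).bind
    (fun l => if bits l = bits (cands e) then some (dec' l) else none)

theorem srch_mem {e : List Bool} {n : ℕ} {r : List (ℕ × List Bool)} (h : r ∈ srch e n) :
    r = cands e := by
  unfold srch at h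
  simp only [Option.mem_def, Option.bind_eq_some_iff] at h
  obtain ⟨l, _, h2⟩ := h
  by_cases hl : bits l = bits (cands e)
  · rw [if_pos hl] at h2
    rw [← bits_code] at hl
    have h3 := bits_injective hl
    rw [h3, dec_code] at h2
    exact (Option.some.inj h2).symm
  · rw [if_neg hl] at h2
    exact absurd h2 (by simp)

theorem srch_ex (e : List Bool) : ∃ n a, a ∈ srch e n := by
  refine ⟨Encodable.encode (code' (cands e)), cands e, ?_⟩
  unfold srch
  rw [Encodable.encodek]
  simp only [Option.bind_some, bits_code, if_true, dec_code]
  rfl

theorem srch_eq (e : List Bool) : Nat.rfindOpt (srch e) = Part.some (cands e) := by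
  have hd : (Nat.rfindOpt (srch e)).Dom := Nat.rfindOpt_dom.2 (srch_ex e)
  obtain ⟨n, hn⟩ := Nat.rfindOpt_spec (Part.get_mem hd)
  rw [Part.eq_some_iff, ← srch_mem hn]
  exact Part.get_mem hd

theorem CP1_proof (hPCA : S_PCA) : S_CP1 := by
  have h0 : Primrec (fun e : List Bool => bits (cands e)) :=
    Pool.Agent.H639R2.NTP.polyTime_primrec (polyTime_bits hPCA)
  have h1 : Primrec (bits : List (List Bool × List Bool) → List Bool) :=
    prim_bits_list (prim_bits_pair (prim_bits_list prim_bits_bool) (prim_bits_list prim_bits_bool))
  have h2 : Primrec dec' := by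
    refine Primrec.list_map Primrec.id ?_
    exact Primrec.pair (prim_valB.comp (Primrec.fst.comp Primrec.snd))
      (Primrec.snd.comp Primrec.snd)
  have h3 : Primrec₂ srch := by
    refine Primrec.option_bind (Primrec.decode.comp Primrec.snd) ?_
    refine Primrec.ite (Primrec.eq.comp (h1.comp Primrec.snd)
      (h0.comp (Primrec.fst.comp Primrec.fst))) ?_ (Primrec.const none)
    exact Primrec.option_some.comp (h2.comp Primrec.snd)
  have h4 : Partrec (fun e => Nat.rfindOpt (srch e)) := Partrec.rfindOpt h3.to_comp
  exact h4.of_eq fun e => srch_eq e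

end Pool.Agent.H654R5.PT.CP1
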