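import Pool.Agent.H654R5.PT.Stm

/-!
# The truth-table reduction is computable in polynomial time (task PFM)
-/

namespace Pool.Agent.H654R5.PT.PFM

open Pool.Agent.NPC

variable {α β γ : Type} [TEnc α] [TEnc β] [TEnc γ]

/-! ### Formulas -/

theorem poly_atom {w : α → List Bool} (hw : NPC.Poly w) : NPC.Poly (fun a => BF.atom (w a)) :=
  NPC.Poly.of_toT (f := fun a => BF.atom (w a))
    (NPC.Poly.node (NPC.Poly.const T.nil) (NPC.Poly.toT' hw))

theorem poly_neg {p : α → BF} (hp : NPC.Poly p) : NPC.Poly (fun a => BF.neg (p a)) :=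
  NPC.Poly.of_toT (f := fun a => BF.neg (p a))
    (NPC.Poly.node (NPC.Poly.const (T.node T.nil T.nil)) (NPC.Poly.toT' hp))

theorem poly_and {p q : α → BF} (hp : NPC.Poly p) (hq : NPC.Poly q) :
    NPC.Poly (fun a => BF.and (p a) (q a)) :=
  NPC.Poly.of_toT (f := fun a => BF.and (p a) (q a))
    (NPC.Poly.node (NPC.Poly.const (T.node T.nil (T.node T.nil T.nil)))
      (NPC.Poly.node (NPC.Poly.toT' hp) (NPC.Poly.toT' hq)))

theorem poly_or {p q : α → BF} (hp : NPC.Poly p) (hq : NPC.Poly q) :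
    NPC.Poly (fun a => BF.or (p a) (q a)) :=
  NPC.Poly.of_toT (f := fun a => BF.or (p a) (q a))
    (NPC.Poly.node (NPC.Poly.const (T.node (T.node T.nil T.nil) T.nil))
      (NPC.Poly.node (NPC.Poly.toT' hp) (NPC.Poly.toT' hq)))

theorem toT_or (p q : BF) : toT (BF.or p q) =
    T.node (T.node (T.node T.nil T.nil) T.nil) (T.node (toT p) (toT q)) := rfl

theorem toT_and (p q : BF) : toT (BF.and p q) =
    T.node (T.node T.nil (T.node T.nil T.nil)) (T.node (toT p) (toT q)) := rfl

theorem sz_or (p q : BF) : sz (BF.or p q) = 7 + sz p + sz q := by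
  simp only [sz, toT_or, T.size_node, T.size_nil]
  omega

theorem sz_and (p q : BF) : sz (BF.and p q) = 7 + sz p + sz q := by
  simp only [sz, toT_and, T.size_node, T.size_nil]
  omega

theorem sz_bigOr (l : List BF) : sz (l.foldr BF.or BF.fls) ≤ 7 * sz l := by
  induction l with
  | nil =>
    have : sz (BF.fls) = 1 := rfl
    simp only [List.foldr_nil, sz_list_nil]
    omega
  | cons p l ih =>
    rw [List.foldr_cons, sz_or, sz_list_cons]
    omega

theorem sz_bigAnd (l : List BF) : sz (l.foldr BF.and (BF.neg BF.fls)) ≤ 7 * sz l := by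
  induction l with
  | nil =>
    have : sz (BF.neg BF.fls) = 5 := rfl
    simp only [List.foldr_nil, sz_list_nil]
    omega
  | cons p l ih =>
    rw [List.foldr_cons, sz_and, sz_list_cons]
    omega

theorem poly_bigOr {l : α → List BF} (hl : NPC.Poly l) : NPC.Poly (fun a => bigOr (l a)) := by
  obtain ⟨p, hp⟩ := hl.sz_le
  refine NPC.Poly.foldr (F := fun _ => BF.or) (s := fun _ => BF.fls) hl (NPC.Poly.const _)
    (poly_or (NPC.Poly.fst (NPC.Poly.snd NPC.Poly.id)) (NPC.Poly.snd (NPC.Poly.snd NPC.Poly.id)))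
    (7 * p) ?_
  intro a k _
  have h1 := sz_bigOr ((l a).drop k)
  have h2 := NPC.Poly.sz_drop_le (l a) k
  have h3 := hp a
  simp only [Polynomial.eval_mul, Polynomial.eval_ofNat]
  omega

theorem poly_bigAnd {l : α → List BF} (hl : NPC.Poly l) : NPC.Poly (fun a => bigAnd (l a)) := by
  obtain ⟨p, hp⟩ := hl.sz_le
  refine NPC.Poly.foldr (F := fun _ => BF.and) (s := fun _ => BF.neg BF.fls) hl
    (NPC.Poly.const _)
    (poly_and (NPC.Poly.fst (NPC.Poly.snd NPC.Poly.id)) (NPC.Poly.snd (NPC.Poly.snd NPC.Poly.id)))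
    (7 * p) ?_
  intro a k _
  have h1 := sz_bigAnd ((l a).drop k)
  have h2 := NPC.Poly.sz_drop_le (l a) k
  have h3 := hp a
  simp only [Polynomial.eval_mul, Polynomial.eval_ofNat]
  omega

/-! ### Numbers -/

theorem uPoly_size {m : α → ℕ} (hm : NPC.Poly m) : UPoly (fun a => Nat.size (m a)) := by
  have h := UPoly.length (NPC.Poly.natBits hm)
  exact NPC.Poly.congr h fun a => by
    change List.replicate (m a).bits.length () = List.replicate (m a).size ()
    rw [Nat.size_eq_bits_len]

theorem poly_replicate {k : α → ℕ} (hk : UPoly k) (b : Bool) :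
    NPC.Poly (fun a => List.replicate (k a) b) :=
  (NPC.Poly.map (F := fun _ _ => b) hk (NPC.Poly.const b)).congr fun a => by simp

theorem poly_two_pow {k : α → ℕ} (hk : UPoly k) : NPC.Poly (fun a => 2 ^ k a) :=
  (NPC.Poly.valBits (NPC.Poly.append (poly_replicate hk false) (NPC.Poly.const [true]))).congr
    fun a => by rw [valB_replicate_false]; simp

theorem uPoly_sub {m n : α → ℕ} (hm : UPoly m) (hn : NPC.Poly n) :
    UPoly (fun a => m a - n a) :=
  UPoly.of_le (NPC.Poly.sub hm.toPoly hn) hm fun _ => Nat.sub_le _ _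

theorem poly_gI {m : α → ℕ} (hm : NPC.Poly m) : NPC.Poly (fun a => gI (m a)) := by
  have hs : UPoly (fun a => Nat.size (m a)) := uPoly_size hm
  have hF : NPC.Poly (fun p : α × ℕ => 2 ^ (min p.2 (Nat.size (m p.1)) + 1)) := by
    refine poly_two_pow (k := fun p : α × ℕ => min p.2 (Nat.size (m p.1)) + 1)
      (UPoly.add ?_ (UPoly.const 1))
    refine UPoly.of_le (NPC.Poly.min (NPC.Poly.snd NPC.Poly.id)
      ((UPoly.toPoly hs).comp (NPC.Poly.fst NPC.Poly.id))) (hs.comp (NPC.Poly.fst NPC.Poly.id)) ?_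
    intro a
    exact Nat.min_le_right _ _
  have hl : NPC.Poly (fun a => (List.range (Nat.size (m a) + 1)).map
      (fun i => 2 ^ (min i (Nat.size (m a)) + 1))) :=
    NPC.Poly.map (F := fun a i => 2 ^ (min i (Nat.size (m a)) + 1))
      (UPoly.range (UPoly.add hs (UPoly.const 1))) hF
  have hfil := NPC.Poly.head? (NPC.Poly.filter (p := fun a g => decide (Nat.size (m a) ≤ g)) hl
    (NPC.Poly.decide_le ((UPoly.toPoly hs).comp (NPC.Poly.fst NPC.Poly.id))
      (NPC.Poly.snd NPC.Poly.id)))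
  refine (NPC.Poly.optGetD hfil (NPC.Poly.const 2)).congr fun a => ?_
  rw [List.head?_filter]
  unfold gI
  congr 2
  refine List.map_congr_left fun i hi => ?_
  rw [List.mem_range] at hi
  rw [Nat.min_eq_left (by omega)]

theorem logPar_gI (hCLS : S_CLS) {m : α → ℕ} (hm : UPoly m) : LogPar (fun a => gI (m a)) := by
  have hb : ∀ a, 2 ^ gI (m a) ≤ (m a + 2) * (m a + 2) := fun a => by
    have := (hCLS.1 (m a)).2.2
    rwa [sq] at this
  have hu : UPoly (fun a => (m a + 2) * (m a + 2)) :=
    UPoly.mul (UPoly.add hm (UPoly.const 2)) (UPoly.add hm (UPoly.const 2))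
  have h1 : UPoly (fun a => gI (m a)) :=
    UPoly.of_le (poly_gI hm.toPoly) hu fun a => (Nat.lt_two_pow_self).le.trans (hb a)
  exact ⟨h1, UPoly.of_le (poly_two_pow h1) hu hb⟩

theorem poly_item (hCLS : S_CLS) {e : α → List Bool} (he : NPC.Poly e) :
    NPC.Poly (fun a => item (e a)) := by
  have h1 : NPC.Poly (fun a => e a ++ [true]) := NPC.Poly.append he (NPC.Poly.const [true])
  have h2 := (logPar_gI hCLS (UPoly.length he)).2
  exact NPC.Poly.append h1 (poly_replicate (uPoly_sub h2 (NPC.Poly.length h1)) false)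

/-! ### The formula -/

theorem poly_fmlPart {l : α → List (List Bool)} {s : α → List Bool} {c : α → List Bool → Bool}
    (hl : NPC.Poly l) (hs : NPC.Poly s) (hc : NPC.Poly (fun p : α × List Bool => c p.1 p.2)) :
    NPC.Poly (fun a => ((l a).filter (c a)).map (fun z =>
      BF.atom (false :: false :: (s a ++ z)))) :=
  NPC.Poly.map (F := fun a z => BF.atom (false :: false :: (s a ++ z)))
    (NPC.Poly.filter hl hc)
    (poly_atom (NPC.Poly.cons (NPC.Poly.const false) (NPC.Poly.cons (NPC.Poly.const false)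
      (NPC.Poly.append (hs.comp (NPC.Poly.fst NPC.Poly.id)) (NPC.Poly.snd NPC.Poly.id)))))

theorem poly_phi (hPCO : S_PCO) (hPST : S_PST) (hPPA : S_PPA) (hCLS : S_CLS) {e : α → List Bool}
    {p : α → ℕ × List Bool} (he : NPC.Poly e) (hp : NPC.Poly p) :
    NPC.Poly (fun a => phi (e a) (p a)) := by
  have hg : LogPar (fun a => gI (e a).length) := logPar_gI hCLS (UPoly.length he)
  have haa : LogPar (fun a => aa (gI (e a).length)) := (hPPA _ hg).2.1
  have hl : NPC.Poly (fun a => allStr (aa (gI (e a).length))) := hPST _ haa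
  have hg' : LogPar (fun q : α × List Bool => gI (e q.1).length) :=
    logPar_gI hCLS (UPoly.length (he.comp (NPC.Poly.fst NPC.Poly.id)))
  have hc : NPC.Poly (fun q : α × List Bool => code (gI (e q.1).length) (item (e q.1)) q.2) :=
    hPCO (fun q : α × List Bool => gI (e q.1).length) (fun q => item (e q.1)) (fun q => q.2) hg'
      (poly_item hCLS (he.comp (NPC.Poly.fst NPC.Poly.id))) (NPC.Poly.snd NPC.Poly.id)
  have hs : NPC.Poly (fun a => (p a).2) := NPC.Poly.snd hp
  refine poly_and (poly_bigAnd ?_) (poly_bigOr ?_)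
  · have h1 := NPC.Poly.map (F := fun _ b => BF.neg b) 
      (poly_fmlPart (c := fun a z => code (gI (e a).length) (item (e a)) z) hl hs hc)
      (poly_neg (NPC.Poly.snd NPC.Poly.id))
    refine h1.congr fun a => ?_
    rw [List.map_map]
    rfl
  · exact poly_fmlPart (c := fun a z => !code (gI (e a).length) (item (e a)) z) hl hs
      (NPC.Poly.not hc)

theorem PFM_proof (hPCA : S_PCA) (hPCO : S_PCO) (hPST : S_PST) (hPPA : S_PPA) (hCLS : S_CLS) :
    S_PFM := by
  intro d
  have h1 : NPC.Poly (fun e : List Bool => fml e) :=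
    poly_bigOr (NPC.Poly.map (F := fun e p => phi e p) hPCA
      (poly_phi hPCO hPST hPPA hCLS (NPC.Poly.fst NPC.Poly.id) (NPC.Poly.snd NPC.Poly.id)))
  have h2 : NPC.Poly (fun x : List Bool => fml (d ++ x)) :=
    h1.comp (NPC.Poly.append (NPC.Poly.const d) NPC.Poly.id)
  exact polyTime_bits h2

end Pool.Agent.H654R5.PT.PFM
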