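import Pool.Agent.H654R5.PT.Stm

/-!
# Reduction modulo a monic polynomial over GF(2) is in polynomial time (task PMO)
-/

namespace Pool.Agent.H654R5.PT.PMO

open Pool.Agent.NPC

variable {α β γ : Type} [TEnc α] [TEnc β] [TEnc γ]

theorem zip_fst {β γ : Type} : ∀ (l : List β) (l' : List γ), (l.zip l').map Prod.fst = l.take l'.length
  | [], _ => by simp
  | _ :: _, [] => by simp
  | a :: l, b :: l' => by simp [zip_fst l l']

/-- the prefix of `l` whose length is that of the list `l'` -/
theorem poly_takeLen {l : α → List β} {l' : α → List γ} (hl : NPC.Poly l) (hl' : NPC.Poly l') :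
    NPC.Poly (fun a => (l a).take (l' a).length) :=
  (NPC.Poly.map (F := fun _ p => p.1) (Poly.zip hl hl') (Poly.fst (Poly.snd Poly.id))).congr
    fun a => zip_fst (l a) (l' a)

theorem zipWith_eq {β γ δ : Type} (f : β → γ → δ) : ∀ (l : List β) (l' : List γ),
    (l.zip l').map (fun p => f p.1 p.2) = List.zipWith f l l'
  | [], _ => by simp
  | _ :: _, [] => by simp
  | a :: l, b :: l' => by simp [zipWith_eq f l l']

theorem poly_xorL {u v : α → List Bool} (hu : NPC.Poly u) (hv : NPC.Poly v) :
    NPC.Poly (fun a => xorL (u a) (v a)) := by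
  have h : NPC.Poly (fun a => ((u a).zip (v a)).map (fun p => Bool.xor p.1 p.2)) := by
    refine NPC.Poly.map (F := fun _ p => Bool.xor p.1 p.2) (Poly.zip hu hv) ?_
    exact Poly.xor (Poly.fst (Poly.snd Poly.id)) (Poly.snd (Poly.snd Poly.id))
  exact h.congr fun a => zipWith_eq Bool.xor (u a) (v a)

theorem poly_getLastD {u : α → List Bool} (hu : NPC.Poly u) :
    NPC.Poly (fun a => (u a).getLastD false) :=
  (Poly.head?_getD (Poly.reverse hu) false).congr fun a => by
    rw [List.head?_reverse, List.getLastD_eq_getLast?]

theorem poly_remStep {h acc : α → List Bool} {b : α → Bool} (hh : NPC.Poly h) (hb : NPC.Poly b)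
    (ha : NPC.Poly acc) : NPC.Poly (fun a => remStep (h a) (b a) (acc a)) := by
  have h1 : NPC.Poly (fun a => b a :: acc a) := Poly.cons hb ha
  have h2 := poly_getLastD h1
  have h3 := poly_takeLen (poly_xorL h1 hh) (Poly.tail hh)
  have h4 := poly_takeLen h1 (Poly.tail hh)
  refine (Poly.cond h2 h3 h4).congr fun a => ?_
  simp only [remStep, List.length_tail]
  cases (b a :: acc a).getLastD false <;> rfl

theorem length_remStep (h acc : List Bool) (b : Bool) : (remStep h b acc).length ≤ h.length := by
  unfold remStep
  split
  · rw [List.length_take]; omega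
  · rw [List.length_take]; omega

theorem length_fold (h : List Bool) : ∀ f : List Bool,
    (f.foldr (remStep h) (List.replicate (h.length - 1) false)).length ≤ h.length
  | [] => by simp
  | b :: f => length_remStep h _ b

theorem PMO_proof : S_PMO := by
  intro α _ h f hh hf
  have hs : NPC.Poly (fun a => List.replicate ((h a).length - 1) false) := by
    refine (NPC.Poly.map (F := fun _ _ => false) (Poly.tail hh) (NPC.Poly.const false)).congr fun a => ?_
    rw [List.map_const', List.length_tail]
  obtain ⟨p, hp⟩ := hh.sz_le
  have hF : NPC.Poly (fun p : α × Bool × List Bool => remStep (h p.1) p.2.1 p.2.2) :=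
    poly_remStep (hh.comp (Poly.fst Poly.id)) (Poly.fst (Poly.snd Poly.id))
      (Poly.snd (Poly.snd Poly.id))
  refine Poly.foldr (F := fun a => remStep (h a)) hf hs hF (4 * p + 1) ?_
  intro a k _
  have h1 := length_fold (h a) ((f a).drop k)
  have h2 := sz_listBool_le (((f a).drop k).foldr (remStep (h a))
    (List.replicate ((h a).length - 1) false))
  have h3 := sz_listBool_ge (h a)
  have h4 := hp a
  simp only [Polynomial.eval_add, Polynomial.eval_mul, Polynomial.eval_ofNat, Polynomial.eval_one]
  omega

end Pool.Agent.H654R5.PT.PMO
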